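import Pool.Agent.Q212.SCFT

/-!
# `MP_07c8c2_lc`, Q1: yes, and for all forcings

*If `P` is strongly proper for stationarily many models and player II wins the strong countable fan
tightness game on `(X, τ)`, does `P` force that II wins the game on `(X, τ_G)`?*

Yes, and this holds for every notion of forcing `P`, strongly proper or not: a winning strategy
of II at a point `x` gives a strategy in the dual game, which assigns to every finite sequence `s`
of points a neighbourhood `W s` of `x` such that every infinite sequence `f` with
`f n ∈ W (f 0, ..., f (n - 1))` for all `n` has `x` in the closure of its range. For a
fixed open set `O` of the ground model with `x ∈ O` this says that a certain tree of finite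
sequences of points of `X \ O` has no infinite branch, so it has no infinite branch in the
extension. In the extension II answers to the move `A` after the answers `s` with the least
element, in a well-ordering of `X` in the ground model, of the nonempty set `A ∩ W s`.

The forcing relation. A sentence of the forcing language of `P` is represented by the set of the
conditions which force it (`Pool.Agent.Helper669.Forcing`); a name of a subset of `X` is a map from
`X` to sets of conditions; `WinsForced P x` (in `Pool.Agent.Q212.SCFT`) says that in the
extension II has a winning strategy at `x`, where the topology is generated by the open sets of
the ground model and player I may play arbitrary sets of the extension.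
-/

set_option autoImplicit false

namespace Pool.Agent.Results.MP_07c8c2_lc.EveryForcing

open Pool.Agent.Q212.SCFT Pool.Agent.Helper669.Forcing

universe u v

/-- **Main theorem.** Let `P` be any notion of forcing and `X` a topological space. If player II has
a winning strategy in the strong countable fan tightness game at the point `x`, then every
condition of `P` forces that II has a winning strategy at `x` in the extension. In particular, if II
wins the game at all points of `X`, then every condition forces that for all points `x` of `X` II
has a winning strategy at `x`. -/
theorem result (P : Type u) [Preorder P] (X : Type v) [TopologicalSpace X] :
    (∀ x : X, WinsAt x → ∀ p : P, p ∈ WinsForced P x) ∧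
    ((∀ x : X, WinsAt x) → ∀ p : P, p ∈ fall fun x : X => WinsForced P x) :=
  ⟨fun _ h p => winsForced h p, fun h p x => winsForced (h x) p⟩

end Pool.Agent.Results.MP_07c8c2_lc.EveryForcing
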